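import Mathlib
import Pool.Agent.H629.TA.Stm

set_option autoImplicit false

open Finset

namespace Pool.Agent.H653.TA.P2

open Pool.Agent.H629.TA

theorem t_P2 : S_DR → S_EX → S_NW → S_TR → S_TW → S_SR → S_P2 := by
  intro hDR hEX hNW hTR hTW _ m δ hm hδ k h hk hV
  obtain ⟨-, hsum, -⟩ := hTW m k h hk hV
  have hS := hsum δ
  have hkr : (2 : ℝ) ≤ k := by exact_mod_cast hk
  have hm0 : (0 : ℝ) ≤ m := Nat.cast_nonneg m
  have hL : 0 < tot m δ k := by
    unfold tot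
    have h1 : 0 ≤ 2 * (m : ℝ) * ((k : ℝ) - 1) := mul_nonneg (by linarith) (by linarith)
    have h2 : 0 < (k : ℝ) * δ := mul_pos (by linarith) hδ
    linarith
  have hp : ∑ a ∈ Icc 1 k, (fun a => wt m δ h k a / tot m δ k) a = 1 := by
    simp only
    rw [← Finset.sum_div, hS, div_self hL.ne']
  obtain ⟨dc, dadd, dmul, -, dcongr, -⟩ :=
    hDR m (Icc 1 k) (fun a => wt m δ h k a / tot m δ k)
  obtain ⟨e1, e2, e3⟩ := hEX m (Icc 1 k) (fun a => wt m δ h k a) (tot m δ k) hL hS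
  obtain ⟨e4, e5⟩ := e3 (fun a b => (mult m h a b : ℝ)) (by intro a; simp [mult])
  refine ⟨?_, ?_, ?_⟩
  · have h1 : step m δ k (S2 m δ (k + 1)) h =
        draw m (Icc 1 k) (fun a => wt m δ h k a / tot m δ k)
          (fun j => ∑ a ∈ Icc 1 k, (wt m δ h k a + (cnt j a : ℝ)) ^ 2 + (m + δ) ^ 2) := by
      unfold step
      exact dcongr _ _ (fun j hj => (hNW m k δ h j hk hj).1)
    rw [h1, dadd (fun j => ∑ a ∈ Icc 1 k, (wt m δ h k a + (cnt j a : ℝ)) ^ 2)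
      (fun _ => (m + δ) ^ 2), dc _ hp, e1]
    unfold al S2
    ring
  · have h1 : step m δ k (WW m δ (k + 1)) h =
        draw m (Icc 1 k) (fun a => wt m δ h k a / tot m δ k)
          (fun j => (1 / 2) * ∑ a ∈ Icc 1 k, ∑ b ∈ Icc 1 k, (mult m h a b : ℝ) *
            ((wt m δ h k a + (cnt j a : ℝ)) * (wt m δ h k b + (cnt j b : ℝ))) +
            (m + δ) * ∑ a ∈ Icc 1 k, (cnt j a : ℝ) * (wt m δ h k a + (cnt j a : ℝ))) := by
      unfold step
      exact dcongr _ _ (fun j hj => (hNW m k δ h j hk hj).2.2.1)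
    rw [h1, dadd (fun j => (1 / 2) * ∑ a ∈ Icc 1 k, ∑ b ∈ Icc 1 k, (mult m h a b : ℝ) *
            ((wt m δ h k a + (cnt j a : ℝ)) * (wt m δ h k b + (cnt j b : ℝ))))
      (fun j => (m + δ) * ∑ a ∈ Icc 1 k, (cnt j a : ℝ) * (wt m δ h k a + (cnt j a : ℝ))),
      dmul, dmul, e2, e4]
    unfold al be S2 WW
    ring
  · have h1 : step m δ k (fun h => (xi m k h : ℝ)) h =
        draw m (Icc 1 k) (fun a => wt m δ h k a / tot m δ k)
          (fun j => (1 / 2) * ∑ a ∈ Icc 1 k, ∑ b ∈ Icc 1 k, (mult m h a b : ℝ) *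
            ((cnt j a : ℝ) * (cnt j b : ℝ))) := by
      unfold step
      exact dcongr _ _ (fun j hj => (hTR m k h j hk hj).2.2)
    rw [h1, dmul, e5]
    unfold WW
    ring

end Pool.Agent.H653.TA.P2
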